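import Mathlib

namespace Pool.Agent.Results.MP_662923_co.NotSperner

/-- `H` is a connected spanning subgraph of `G`, i.e. a member of the poset `C'(G)` (ordered by `≤`,
that is by inclusion of edge sets). -/
def InC {V : Type} (G H : SimpleGraph V) : Prop := H ≤ G ∧ H.Connected

/-! ### The graph -/

/-- The eleven paths out of which the graph is built, as lists of vertices. -/
def tab : Fin 11 → List (Fin 21) :=
  ![[0, 6, 1], [0, 7, 1], [1, 8, 2], [1, 9, 2], [2, 10, 3], [2, 11, 12, 3], [3, 13, 14, 4],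
    [3, 15, 16, 4], [4, 17, 18, 5], [4, 19, 20, 5], [0, 5]]

/-- Lengths of the paths. -/
def w : Fin 11 → ℕ := ![2, 2, 2, 2, 2, 3, 3, 3, 3, 3, 1]

def pt (e : Fin 11) (k : ℕ) : Fin 21 := (tab e).getD k 0

/-- Index type of the `26` edges. -/
abbrev E := Σ e : Fin 11, Fin (w e)

def ed (x : E) : Sym2 (Fin 21) := s(pt x.1 x.2, pt x.1 (x.2 + 1))

theorem ed_inj : Function.Injective ed := by
  intro x y
  revert x y
  decide +kernel

theorem ed_nd : ∀ x : E, pt x.1 x.2 ≠ pt x.1 (x.2 + 1) := by decide +kernel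

/-- The subgraph with edges indexed by `K`. -/
def Hof (K : Set E) : SimpleGraph (Fin 21) := SimpleGraph.fromEdgeSet (ed '' K)

/-- The graph `G`, with `21` vertices and `26` edges. -/
def G : SimpleGraph (Fin 21) := Hof Set.univ

theorem Hof_edgeSet (K : Set E) : (Hof K).edgeSet = ed '' K := by
  rw [Hof, SimpleGraph.edgeSet_fromEdgeSet]
  ext z
  constructor
  · exact fun h => h.1
  · rintro ⟨x, hx, rfl⟩
    refine ⟨⟨x, hx, rfl⟩, ?_⟩
    intro h
    exact ed_nd x (Sym2.mk_isDiag_iff.1 h)

theorem eq_Hof {H : SimpleGraph (Fin 21)} (h : H ≤ G) : H = Hof {x | ed x ∈ H.edgeSet} := by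
  rw [← SimpleGraph.edgeSet_inj, Hof_edgeSet]
  ext z
  constructor
  · intro hz
    have h1 := SimpleGraph.edgeSet_mono h hz
    rw [G, Hof_edgeSet] at h1
    obtain ⟨x, -, rfl⟩ := h1
    exact ⟨x, hz, rfl⟩
  · rintro ⟨x, hx, rfl⟩
    exact hx

theorem Hof_le (K : Set E) : Hof K ≤ G := by
  rw [← SimpleGraph.edgeSet_subset_edgeSet, G, Hof_edgeSet, Hof_edgeSet]
  exact Set.image_mono (Set.subset_univ _)

theorem Hof_ncard (K : Set E) : (Hof K).edgeSet.ncard = K.ncard := by
  rw [Hof_edgeSet, Set.ncard_image_of_injective _ ed_inj]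

theorem Hof_le_iff (K L : Set E) : Hof K ≤ Hof L ↔ K ⊆ L := by
  rw [← SimpleGraph.edgeSet_subset_edgeSet, Hof_edgeSet, Hof_edgeSet]
  exact Set.image_subset_image_iff ed_inj

theorem Hof_adj {K : Set E} {x : E} (hx : x ∈ K) : (Hof K).Adj (pt x.1 x.2) (pt x.1 (x.2 + 1)) := by
  rw [← SimpleGraph.mem_edgeSet, Hof_edgeSet]
  exact ⟨x, hx, rfl⟩

/-! ### Cuts -/

theorem cut {K : Set E} (hc : (Hof K).Connected) (A : Fin 21 → Prop)
    (h : ∀ x ∈ K, A (pt x.1 x.2) ↔ A (pt x.1 (x.2 + 1))) (u v : Fin 21) : A u ↔ A v := by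
  obtain ⟨p⟩ := hc.preconnected u v
  induction p with
  | nil => rfl
  | cons hadj _ ih =>
    refine Iff.trans ?_ ih
    rw [← SimpleGraph.mem_edgeSet, Hof_edgeSet] at hadj
    obtain ⟨x, hx, hxe⟩ := hadj
    have := h x hx
    rcases Sym2.eq_iff.1 hxe with ⟨h1, h2⟩ | ⟨h1, h2⟩
    · rw [← h1, ← h2]; exact this
    · rw [← h1, ← h2]; exact this.symm

def A1 (e : Fin 11) (i i' : ℕ) (u : Fin 21) : Prop := ∃ k : Fin 4, i < k ∧ k ≤ i' ∧ pt e k = u

instance (e : Fin 11) (i i' : ℕ) (u : Fin 21) : Decidable (A1 e i i' u) := by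
  unfold A1; infer_instance

theorem A1_prop : ∀ e : Fin 11, ∀ i i' : Fin (w e), i < i' → A1 e i i' (pt e (i + 1)) ∧
    ¬ A1 e i i' (pt e 0) ∧ ∀ x : E, x ≠ ⟨e, i⟩ → x ≠ ⟨e, i'⟩ →
    (A1 e i i' (pt x.1 x.2) ↔ A1 e i i' (pt x.1 (x.2 + 1))) := by
  decide +kernel

/-- At most one edge is missing on every path. -/
theorem path_one {K : Set E} (hc : (Hof K).Connected) (e : Fin 11) (i i' : Fin (w e))
    (h : (⟨e, i⟩ : E) ∉ K) (h' : (⟨e, i'⟩ : E) ∉ K) : i = i' := by
  have key : ∀ i i' : Fin (w e), (⟨e, i⟩ : E) ∉ K → (⟨e, i'⟩ : E) ∉ K → ¬ i < i' := by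
    intro i i' h h' hlt
    obtain ⟨h1, h2, h3⟩ := A1_prop e i i' hlt
    refine h2 ((cut hc (A1 e i i') (fun x hx => h3 x ?_ ?_) _ _).1 h1)
    · rintro rfl; exact h hx
    · rintro rfl; exact h' hx
  rcases lt_trichotomy i i' with hlt | heq | hlt
  · exact absurd hlt (key i i' h h')
  · exact heq
  · exact absurd hlt (key i' i h' h)

def sa (j : Fin 5) : Fin 11 := ⟨2 * j, by omega⟩
def sb (j : Fin 5) : Fin 11 := ⟨2 * j + 1, by omega⟩

/-- Position of a vertex along the ring. -/
def ht : Fin 21 → ℕ := ![0, 2, 4, 6, 8, 10, 1, 1, 3, 3, 5, 5, 5, 7, 7, 7, 7, 9, 9, 9, 9]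

def A2 (j : Fin 5) (i i' : ℕ) (u : Fin 21) : Prop :=
  ht u ≤ 2 * j ∨ (∃ k : Fin 4, k ≤ i ∧ pt (sa j) k = u) ∨ (∃ k : Fin 4, k ≤ i' ∧ pt (sb j) k = u)

instance (j : Fin 5) (i i' : ℕ) (u : Fin 21) : Decidable (A2 j i i' u) := by
  unfold A2; infer_instance

def e0 : E := ⟨10, ⟨0, by decide⟩⟩

theorem i3_eq : ∀ i : Fin (w 10), (⟨10, i⟩ : E) = e0 := by decide

theorem g_succ : ∀ (i : Fin 6) (h : i.val < 5), i + 1 = ⟨i.val + 1, by omega⟩ := by decide

def hub (j : Fin 6) : Fin 21 := ⟨j, by omega⟩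

theorem A2_prop : ∀ j : Fin 5, ∀ i : Fin (w (sa j)), ∀ i' : Fin (w (sb j)),
    ∀ x : E, x ≠ ⟨sa j, i⟩ → x ≠ ⟨sb j, i'⟩ → x ≠ e0 →
    (A2 j i i' (pt x.1 x.2) ↔ A2 j i i' (pt x.1 (x.2 + 1))) := by
  decide +kernel

theorem A2_hub : ∀ j : Fin 5, ∀ i : Fin (w (sa j)), ∀ i' : Fin (w (sb j)), ∀ h : Fin 6,
    (A2 j i i' (hub h) ↔ h.val ≤ j.val) := by
  decide +kernel

theorem break_e {K : Set E} (hc : (Hof K).Connected) (j : Fin 5) (i : Fin (w (sa j)))
    (i' : Fin (w (sb j))) (h1 : (⟨sa j, i⟩ : E) ∉ K) (h2 : (⟨sb j, i'⟩ : E) ∉ K) : e0 ∈ K := by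
  by_contra h3
  have := cut hc (A2 j i i') (fun x hx => A2_prop j i i' x (by rintro rfl; exact h1 hx)
    (by rintro rfl; exact h2 hx) (by rintro rfl; exact h3 hx)) (hub 0) (hub 5)
  rw [A2_hub, A2_hub] at this
  have h4 : (0 : Fin 6).val ≤ j.val := Nat.zero_le _
  have h5 := this.1 h4
  have h6 : (5 : Fin 6).val = 5 := rfl
  omega

theorem break_two {K : Set E} (hc : (Hof K).Connected) (j l : Fin 5) (hjl : j < l)
    (i : Fin (w (sa j))) (i' : Fin (w (sb j))) (k : Fin (w (sa l))) (k' : Fin (w (sb l)))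
    (h1 : (⟨sa j, i⟩ : E) ∉ K) (h2 : (⟨sb j, i'⟩ : E) ∉ K)
    (h3 : (⟨sa l, k⟩ : E) ∉ K) (h4 : (⟨sb l, k'⟩ : E) ∉ K) : False := by
  have := cut hc (fun u => A2 j i i' u ↔ A2 l k k' u) (fun x hx => by
    by_cases hx0 : x = e0
    · subst hx0
      have e1 : pt e0.1 e0.2 = hub 0 := rfl
      have e2 : pt e0.1 (e0.2 + 1) = hub 5 := rfl
      have h6 : (5 : Fin 6).val = 5 := rfl
      have h7 : (0 : Fin 6).val = 0 := rfl
      simp only [e1, e2, A2_hub, h6, h7]
      have := j.isLt
      have := l.isLt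
      constructor <;> intro _ <;> constructor <;> intro _ <;> omega
    · have a := A2_prop j i i' x (by rintro rfl; exact h1 hx) (by rintro rfl; exact h2 hx) hx0
      have b := A2_prop l k k' x (by rintro rfl; exact h3 hx) (by rintro rfl; exact h4 hx) hx0
      simp only [a, b]) (hub 0) (hub ⟨l, by omega⟩)
  simp only [A2_hub] at this
  have h7 : (0 : Fin 6).val = 0 := rfl
  have h8 : j.val < l.val := hjl
  have h9 := (this.1 (by rw [h7]; simp)).2 le_rfl
  simp at h9
  omega

/-! ### Codes -/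

/-- A code tells for every path which of its edges (if any) is missing. -/
abbrev M := ∀ e : Fin 11, Option (Fin (w e))

def KM (m : M) : Set E := {x | m x.1 ≠ some x.2}

def D (m : M) (e : Fin 11) : Bool := (m e).isSome

def valid (D : Fin 11 → Bool) : Prop :=
  (∀ j l : Fin 5, j < l → ¬ ((D (sa j) ∧ D (sb j)) ∧ (D (sa l) ∧ D (sb l)))) ∧
  (∀ j : Fin 5, ¬ ((D (sa j) ∧ D (sb j)) ∧ D 10))

/-- Number of breaks of the ring. -/
def nb (d : Fin 11 → Bool) : ℕ := (d 0 && d 1).toNat + (d 2 && d 3).toNat + (d 4 && d 5).toNat +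
  (d 6 && d 7).toNat + (d 8 && d 9).toNat + (d 10).toNat

theorem bool_aux : ∀ g : Fin 5 → Bool, ∀ t : Bool,
    ((g 0).toNat + (g 1).toNat + (g 2).toNat + (g 3).toNat + (g 4).toNat + t.toNat ≤ 1 ↔
    (∀ j l : Fin 5, j < l → ¬ (g j = true ∧ g l = true)) ∧ (∀ j : Fin 5, ¬ (g j = true ∧ t = true))) := by
  decide +kernel

theorem valid_iff (d : Fin 11 → Bool) : valid d ↔ nb d ≤ 1 := by
  have h := bool_aux (fun j => d (sa j) && d (sb j)) (d 10)
  simp only [Bool.and_eq_true] at h
  exact h.symm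

theorem exists_code {K : Set E} (hc : (Hof K).Connected) : ∃ m : M, KM m = K ∧ valid (D m) := by
  classical
  let m : M := fun e => if h : ∃ i, (⟨e, i⟩ : E) ∉ K then some h.choose else none
  have hm1 : ∀ e i, m e = some i → (⟨e, i⟩ : E) ∉ K := by
    intro e i h
    by_cases hh : ∃ i, (⟨e, i⟩ : E) ∉ K
    · simp only [m, dif_pos hh, Option.some.injEq] at h
      rw [← h]
      exact hh.choose_spec
    · simp [m, dif_neg hh] at h
  have hm2 : ∀ e i, (⟨e, i⟩ : E) ∉ K → m e = some i := by
    intro e i h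
    have hh : ∃ i, (⟨e, i⟩ : E) ∉ K := ⟨i, h⟩
    simp only [m, dif_pos hh, Option.some.injEq]
    exact path_one hc e _ _ hh.choose_spec h
  have hD : ∀ e, D m e = true → ∃ i, (⟨e, i⟩ : E) ∉ K := by
    intro e h
    obtain ⟨i, hi⟩ := Option.isSome_iff_exists.1 h
    exact ⟨i, hm1 e i hi⟩
  refine ⟨m, ?_, ?_, ?_⟩
  · ext ⟨e, i⟩
    constructor
    · intro h
      by_contra hk
      exact h (hm2 e i hk)
    · intro h hk
      exact hm1 e i hk h
  · rintro j l hjl ⟨⟨h1, h2⟩, h3, h4⟩
    obtain ⟨i1, h1⟩ := hD _ h1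
    obtain ⟨i2, h2⟩ := hD _ h2
    obtain ⟨i3, h3⟩ := hD _ h3
    obtain ⟨i4, h4⟩ := hD _ h4
    exact break_two hc j l hjl i1 i2 i3 i4 h1 h2 h3 h4
  · rintro j ⟨⟨h1, h2⟩, h3⟩
    obtain ⟨i1, h1⟩ := hD _ h1
    obtain ⟨i2, h2⟩ := hD _ h2
    obtain ⟨i3, h3⟩ := hD _ h3
    have h4 := break_e hc j i1 i2 h1 h2
    rw [i3_eq i3] at h3
    exact h3 h4

/-! ### Sufficiency -/

theorem all_eq {α : Type} (C : Fin 6 → α)
    (h : ∀ i j : Fin 6, i ≠ j → C i = C (i + 1) ∨ C j = C (j + 1)) : ∀ i, C 0 = C i := by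
  have key : ∀ j : Fin 6, C j = C (j + 1) := by
    intro j
    by_contra hj
    have h' : ∀ i, i ≠ j → C i = C (i + 1) := fun i hij => (h i j hij).resolve_right hj
    have g1 : ∀ j : Fin 6, j + 1 ≠ j := by decide
    have g2 : ∀ j : Fin 6, j + 2 ≠ j := by decide
    have g3 : ∀ j : Fin 6, j + 3 ≠ j := by decide
    have g4 : ∀ j : Fin 6, j + 4 ≠ j := by decide
    have g5 : ∀ j : Fin 6, j + 5 ≠ j := by decide
    have e0 := h' (j + 1) (g1 j)
    have e1 := h' (j + 2) (g2 j)
    have e2 := h' (j + 3) (g3 j)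
    have e3 := h' (j + 4) (g4 j)
    have e4 := h' (j + 5) (g5 j)
    apply hj
    have f1 : ∀ j : Fin 6, j + 1 + 1 = j + 2 := by decide
    have f2 : ∀ j : Fin 6, j + 2 + 1 = j + 3 := by decide
    have f3 : ∀ j : Fin 6, j + 3 + 1 = j + 4 := by decide
    have f4 : ∀ j : Fin 6, j + 4 + 1 = j + 5 := by decide
    have f5 : ∀ j : Fin 6, j + 5 + 1 = j := by decide
    rw [f1] at e0; rw [f2] at e1; rw [f3] at e2; rw [f4] at e3; rw [f5] at e4
    rw [e0, e1, e2, e3, e4]
  have k0 := key 0
  have k1 := key 1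
  have k2 := key 2
  have k3 := key 3
  have k4 := key 4
  intro i
  fin_cases i
  · rfl
  · exact k0
  · exact k0.trans k1
  · exact (k0.trans k1).trans k2
  · exact ((k0.trans k1).trans k2).trans k3
  · exact (((k0.trans k1).trans k2).trans k3).trans k4

theorem pt_cover : ∀ u : Fin 21, ∃ e : Fin 11, ∃ k : Fin 4, k ≤ w e ∧ pt e k = u := by decide +kernel

theorem pt_ends : ∀ e : Fin 11, (∃ h : Fin 6, pt e 0 = hub h) ∧ (∃ h : Fin 6, pt e (w e) = hub h) := by
  decide +kernel

theorem connected_of {m : M} (hv : valid (D m)) : (Hof (KM m)).Connected := by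
  set R := (Hof (KM m)).Reachable with hR
  have step : ∀ e (i : Fin (w e)), m e ≠ some i → R (pt e i) (pt e (i + 1)) := by
    intro e i h
    exact (Hof_adj (K := KM m) (x := ⟨e, i⟩) h).reachable
  have left : ∀ e k, k ≤ w e → (∀ i : Fin (w e), i < k → m e ≠ some i) → R (pt e 0) (pt e k) := by
    intro e k
    induction k with
    | zero => intro _ _; exact SimpleGraph.Reachable.refl _
    | succ k ih =>
      intro hk h
      exact (ih (by omega) (fun i hi => h i (by omega))).trans (step e ⟨k, by omega⟩ (h ⟨k, by omega⟩ (by simp)))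
  have right : ∀ e d k, k + d = w e → (∀ i : Fin (w e), k ≤ i → m e ≠ some i) →
      R (pt e k) (pt e (w e)) := by
    intro e d
    induction d with
    | zero => intro k hk _; rw [← hk]; exact SimpleGraph.Reachable.refl _
    | succ d ih =>
      intro k hk h
      exact (step e ⟨k, by omega⟩ (h ⟨k, by omega⟩ (by simp))).trans
        (ih (k + 1) (by omega) (fun i hi => h i (by omega)))
  have full : ∀ e, D m e = false → R (pt e 0) (pt e (w e)) := by
    intro e he
    apply left e _ le_rfl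
    intro i _ hi
    rw [D, hi] at he
    simp at he
  have hubs : ∀ j, R (hub 0) (hub j) := by
    intro j
    have lk : ∀ j : Fin 5, (D m (sa j) = false ∨ D m (sb j) = false) →
        R (hub ⟨j, by omega⟩) (hub ⟨j + 1, by omega⟩) := by
      intro j hj
      rcases hj with hj | hj
      · have := full _ hj
        have e1 : ∀ j : Fin 5, pt (sa j) 0 = hub ⟨j, by omega⟩ := by decide +kernel
        have e2 : ∀ j : Fin 5, pt (sa j) (w (sa j)) = hub ⟨j + 1, by omega⟩ := by decide +kernel
        rw [e1, e2] at this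
        exact this
      · have := full _ hj
        have e1 : ∀ j : Fin 5, pt (sb j) 0 = hub ⟨j, by omega⟩ := by decide +kernel
        have e2 : ∀ j : Fin 5, pt (sb j) (w (sb j)) = hub ⟨j + 1, by omega⟩ := by decide +kernel
        rw [e1, e2] at this
        exact this
    have lk5 : D m 10 = false → R (hub 5) (hub 0) := fun h => (full 10 h).symm
    have this := all_eq (fun j => (Hof (KM m)).connectedComponentMk (hub j)) (by
      let broken : Fin 6 → Prop := fun i =>
        (∃ j : Fin 5, i.val = j.val ∧ D m (sa j) = true ∧ D m (sb j) = true) ∨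
        (i.val = 5 ∧ D m 10 = true)
      have hl : ∀ i : Fin 6, broken i ∨ (Hof (KM m)).connectedComponentMk (hub i) =
          (Hof (KM m)).connectedComponentMk (hub (i + 1)) := by
        intro i
        by_cases hb : broken i
        · exact Or.inl hb
        · right
          rw [SimpleGraph.ConnectedComponent.eq]
          by_cases hi : i.val < 5
          · rw [g_succ i hi]
            apply lk ⟨i.val, hi⟩
            by_contra hcon
            push Not at hcon
            apply hb
            left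
            exact ⟨⟨i.val, hi⟩, rfl, by simpa using hcon.1, by simpa using hcon.2⟩
          · have h5 : i = 5 := by
              apply Fin.ext
              have h6 : (5 : Fin 6).val = 5 := rfl
              omega
            subst h5
            apply lk5
            by_contra hcon
            apply hb
            right
            exact ⟨rfl, by simpa using hcon⟩
      intro i j hij
      rcases hl i with hbi | h
      · rcases hl j with hbj | h
        · exfalso
          rcases hbi with ⟨a, ha, ha1, ha2⟩ | ⟨ha, ha1⟩ <;> rcases hbj with ⟨b, hb, hb1, hb2⟩ | ⟨hb, hb1⟩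
          · rcases lt_trichotomy a b with hlt | heq | hlt
            · exact hv.1 a b hlt ⟨⟨ha1, ha2⟩, hb1, hb2⟩
            · subst heq
              exact hij (Fin.ext (ha.trans hb.symm))
            · exact hv.1 b a hlt ⟨⟨hb1, hb2⟩, ha1, ha2⟩
          · exact hv.2 a ⟨⟨ha1, ha2⟩, hb1⟩
          · exact hv.2 b ⟨⟨hb1, hb2⟩, ha1⟩
          · exact hij (Fin.ext (ha.trans hb.symm))
        · exact Or.inr h
      · exact Or.inl h) j
    exact SimpleGraph.ConnectedComponent.eq.1 this
  have all : ∀ u, R (hub 0) u := by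
    intro u
    obtain ⟨e, k, hk, rfl⟩ := pt_cover u
    obtain ⟨⟨h1, h1'⟩, h2, h2'⟩ := pt_ends e
    by_cases hcase : ∀ i : Fin (w e), i < k.val → m e ≠ some i
    · have := left e k hk hcase
      rw [h1'] at this
      exact (hubs h1).trans this
    · push Not at hcase
      obtain ⟨i, hi, hmi⟩ := hcase
      have := right e (w e - k) k (by omega) (by
        intro i' hi' h
        rw [hmi] at h
        have : i = i' := by simpa using h
        subst this
        omega)
      rw [h2'] at this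
      exact (hubs h2).trans this.symm
  have : Nonempty (Fin 21) := ⟨0⟩
  exact SimpleGraph.Connected.mk fun u v => (all u).symm.trans (all v)

/-! ### Counting codes -/

def S : (n : ℕ) → ((Fin n → Bool) → ℕ) → ℕ
  | 0, φ => φ Fin.elim0
  | n + 1, φ => S n (fun g => φ (Fin.cons false g)) + S n (fun g => φ (Fin.cons true g))

theorem sum_eq_S : ∀ (n : ℕ) (φ : (Fin n → Bool) → ℕ), ∑ f, φ f = S n φ
  | 0, φ => by
    rw [Fintype.sum_unique]
    show φ _ = φ _
    congr 1
  | n + 1, φ => by
    rw [S, ← sum_eq_S n, ← sum_eq_S n, ← (Fin.consEquiv (fun _ : Fin (n + 1) => Bool)).sum_comp,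
      Fintype.sum_prod_type, Fintype.sum_bool, add_comm]
    rfl

/-- Number of missing edges. -/
def sz (d : Fin 11 → Bool) : ℕ := ∑ e, (d e).toNat

def wt (d : Fin 11 → Bool) : ℕ := ∏ e, (bif d e then w e else 1)

theorem card_fiber_aux : ∀ e : Fin 11, ∀ b : Bool,
    (Finset.univ.filter fun o : Option (Fin (w e)) => o.isSome = b).card = bif b then w e else 1 := by
  decide +kernel

theorem card_codes (P : (Fin 11 → Bool) → Prop) [DecidablePred P] :
    (Finset.univ.filter fun m : M => P (D m)).card = S 11 fun d => if P d then wt d else 0 := by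
  rw [← sum_eq_S, Finset.card_eq_sum_card_fiberwise (f := D) (t := Finset.univ)
    (fun _ _ => Finset.mem_coe.2 (Finset.mem_univ _))]
  apply Finset.sum_congr rfl
  intro d _
  by_cases hP : P d
  · rw [if_pos hP]
    have h1 : (Finset.univ.filter fun m : M => P (D m)).filter (fun m => D m = d) =
        Fintype.piFinset (fun e => Finset.univ.filter fun o : Option (Fin (w e)) => o.isSome = d e) := by
      ext m
      simp only [Finset.mem_filter, Finset.mem_univ, true_and, Fintype.mem_piFinset]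
      constructor
      · rintro ⟨-, rfl⟩ e
        rfl
      · intro h
        have : D m = d := funext h
        exact ⟨this ▸ hP, this⟩
    rw [h1, Fintype.card_piFinset]
    apply Finset.prod_congr rfl
    intro e _
    exact card_fiber_aux e (d e)
  · rw [if_neg hP, Finset.card_eq_zero]
    ext m
    simp only [Finset.mem_filter, Finset.mem_univ, true_and, Finset.notMem_empty, iff_false]
    rintro ⟨h, rfl⟩
    exact hP h

theorem ncard_KM (m : M) : (KM m).ncard + sz (D m) = 26 := by
  classical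
  have h1 : KM m = ((Finset.univ.filter fun x : E => ¬ (m x.1 = some x.2) : Finset E) : Set E) := by
    ext x
    simp [KM]
  have h2 : sz (D m) = (Finset.univ.filter fun x : E => m x.1 = some x.2).card := by
    have h3 : (Finset.univ.filter fun x : E => m x.1 = some x.2) =
        Finset.univ.sigma fun e => Finset.univ.filter fun i : Fin (w e) => m e = some i := by
      ext ⟨e, i⟩
      simp
    rw [h3, Finset.card_sigma, sz]
    apply Finset.sum_congr rfl
    intro e _
    rw [D]
    cases hm : m e with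
    | none => simp
    | some i =>
      simp only [Option.isSome_some, Bool.toNat_true, Option.some.injEq]
      rw [Finset.filter_eq, if_pos (Finset.mem_univ _), Finset.card_singleton]
  rw [h1, Set.ncard_coe_finset, h2, add_comm, Finset.card_filter_add_card_filter_not]
  rfl

theorem KM_inj : Function.Injective KM := by
  intro m m' h
  funext e
  have h1 : ∀ i, m e = some i ↔ m' e = some i := by
    intro i
    have := congrArg (fun K : Set E => (⟨e, i⟩ : E) ∈ K) h
    simp only [KM, Set.mem_ofPred_eq, eq_iff_iff] at this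
    exact not_iff_not.1 this
  exact Option.ext h1

theorem Hof_inj : Function.Injective Hof := by
  intro K L h
  exact Set.Subset.antisymm ((Hof_le_iff K L).1 h.le) ((Hof_le_iff L K).1 h.ge)

def PA (d : Fin 11 → Bool) : Prop := nb d ≤ 1 ∧ ((d 10 = true ∧ sz d = 5) ∨ (d 10 = false ∧ sz d = 6))

instance : DecidablePred PA := fun d => by unfold PA; infer_instance

def codesA : Finset M := Finset.univ.filter fun m => PA (D m)

/-- The antichain: the spanning trees of `G` (`20` edges) that contain the edge `05`, together with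
the connected spanning subgraphs with `21` edges that do not contain the edge `05`. -/
def Anti : Set (SimpleGraph (Fin 21)) := (fun m => Hof (KM m)) '' (codesA : Set M)

theorem card_A : codesA.card = 20832 := by
  rw [codesA, card_codes]
  decide +kernel

theorem card_5 : (Finset.univ.filter fun m : M => nb (D m) ≤ 1 ∧ sz (D m) = 5).card = 20736 := by
  rw [card_codes (fun d => nb d ≤ 1 ∧ sz d = 5)]
  decide +kernel

theorem card_6 : (Finset.univ.filter fun m : M => nb (D m) ≤ 1 ∧ sz (D m) = 6).card = 20736 := by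
  rw [card_codes (fun d => nb d ≤ 1 ∧ sz d = 6)]
  decide +kernel

theorem card_rest : (Finset.univ.filter fun m : M => nb (D m) ≤ 1 ∧
    (sz (D m) < 5 ∨ 6 < sz (D m))).card = 11238 := by
  rw [card_codes (fun d => nb d ≤ 1 ∧ (sz d < 5 ∨ 6 < sz d))]
  decide +kernel

theorem level_le (k : ℕ) : {H : SimpleGraph (Fin 21) | InC G H ∧ H.edgeSet.ncard = k}.ncard ≤
    (Finset.univ.filter fun m : M => nb (D m) ≤ 1 ∧ sz (D m) + k = 26).card := by
  have h1 : {H : SimpleGraph (Fin 21) | InC G H ∧ H.edgeSet.ncard = k} ⊆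
      (fun m => Hof (KM m)) '' ((Finset.univ.filter fun m : M => nb (D m) ≤ 1 ∧
        sz (D m) + k = 26 : Finset M) : Set M) := by
    rintro H ⟨⟨hle, hc⟩, hk⟩
    rw [eq_Hof hle] at hc hk ⊢
    obtain ⟨m, hm, hv⟩ := exists_code hc
    refine ⟨m, ?_, by rw [← hm]⟩
    rw [Finset.mem_coe, Finset.mem_filter]
    refine ⟨Finset.mem_univ _, (valid_iff _).1 hv, ?_⟩
    rw [Hof_ncard, ← hm] at hk
    rw [← hk, add_comm]
    exact ncard_KM m
  refine (Set.ncard_le_ncard h1 ((Finset.finite_toSet _).image _)).trans ?_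
  refine (Set.ncard_image_le (Finset.finite_toSet _)).trans ?_
  rw [Set.ncard_coe_finset]

theorem level_lt (k : ℕ) :
    {H : SimpleGraph (Fin 21) | InC G H ∧ H.edgeSet.ncard = k}.ncard < 20832 := by
  refine (level_le k).trans_lt ?_
  by_cases h5 : k = 21
  · subst h5
    refine lt_of_le_of_lt (Finset.card_le_card ?_) (by rw [card_5]; norm_num : _ < 20832)
    intro m hm
    rw [Finset.mem_filter] at hm ⊢
    exact ⟨hm.1, hm.2.1, by omega⟩
  · by_cases h6 : k = 20
    · subst h6
      refine lt_of_le_of_lt (Finset.card_le_card ?_) (by rw [card_6]; norm_num : _ < 20832)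
      intro m hm
      rw [Finset.mem_filter] at hm ⊢
      exact ⟨hm.1, hm.2.1, by omega⟩
    · refine lt_of_le_of_lt (Finset.card_le_card ?_) (by rw [card_rest]; norm_num : _ < 20832)
      intro m hm
      rw [Finset.mem_filter] at hm ⊢
      exact ⟨hm.1, hm.2.1, by omega⟩

theorem Anti_ncard : Anti.ncard = 20832 := by
  have h : Function.Injective (fun m => Hof (KM m)) := Hof_inj.comp KM_inj
  rw [Anti, Set.ncard_image_of_injective _ h, Set.ncard_coe_finset, card_A]

theorem G_conn : G.Connected := by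
  have h : KM (fun _ => none) = Set.univ := by
    ext x
    simp [KM]
  rw [G, ← h]
  apply connected_of
  rw [valid_iff]
  decide

theorem Anti_antichain : IsAntichain (· ≤ ·) Anti := by
  rintro _ ⟨m, hm, rfl⟩ _ ⟨m', hm', rfl⟩ hne hle
  apply hne
  rw [Finset.mem_coe, codesA, Finset.mem_filter] at hm hm'
  have hle' : KM m ⊆ KM m' := (Hof_le_iff _ _).1 hle
  have h1 : ∀ e i, m' e = some i → m e = some i := by
    intro e i h
    by_contra hc
    exact hle' (show (⟨e, i⟩ : E) ∈ KM m from hc) h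
  have h2 : ∀ e, D m' e = true → D m e = true := by
    intro e h
    obtain ⟨i, hi⟩ := Option.isSome_iff_exists.1 h
    rw [D, h1 e i hi]
    rfl
  have h3 : ∀ e, (D m' e).toNat ≤ (D m e).toNat := by
    intro e
    cases hb : D m' e with
    | false => simp
    | true => rw [h2 e hb]
  have h4 : sz (D m') ≤ sz (D m) := Finset.sum_le_sum fun e _ => h3 e
  obtain ⟨-, -, ha⟩ := hm
  obtain ⟨-, -, hb⟩ := hm'
  have h5 : sz (D m') = sz (D m) := by
    rcases ha with ⟨a1, a2⟩ | ⟨a1, a2⟩ <;> rcases hb with ⟨b1, b2⟩ | ⟨b1, b2⟩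
    · omega
    · omega
    · have := h2 10 b1
      rw [a1] at this
      exact absurd this (by simp)
    · omega
  have h6 : ∀ e, (D m' e).toNat = (D m e).toNat := fun e =>
    (Finset.sum_eq_sum_iff_of_le fun e _ => h3 e).1 h5 e (Finset.mem_univ e)
  have h7 : m = m' := by
    funext e
    cases hb : m' e with
    | some i => exact h1 e i hb
    | none =>
      have := h6 e
      rw [D, D, hb] at this
      cases ha : m e with
      | none => rfl
      | some i => rw [ha] at this; simp at this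
  rw [h7]

/-- The poset of connected spanning subgraphs of a connected graph need not be Sperner: there is a
connected graph with `21` vertices and `26` edges for which `C'(G)` contains an antichain with `20832`
members while each level has fewer members. -/
theorem result : ∃ G : SimpleGraph (Fin 21), G.Connected ∧ G.edgeSet.ncard = 26 ∧
    ∃ 𝒜 : Set (SimpleGraph (Fin 21)), (∀ H ∈ 𝒜, InC G H) ∧ IsAntichain (· ≤ ·) 𝒜 ∧
      𝒜.ncard = 20832 ∧
      ∀ k : ℕ, {H : SimpleGraph (Fin 21) | InC G H ∧ H.edgeSet.ncard = k}.ncard < 𝒜.ncard := by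
  refine ⟨G, G_conn, ?_, Anti, ?_, Anti_antichain, Anti_ncard, fun k => ?_⟩
  · rw [G, Hof_ncard, Set.ncard_univ, Nat.card_eq_fintype_card]
    rfl
  · rintro _ ⟨m, hm, rfl⟩
    rw [Finset.mem_coe, codesA, Finset.mem_filter] at hm
    exact ⟨Hof_le _, connected_of ((valid_iff _).2 hm.2.1)⟩
  · rw [Anti_ncard]
    exact level_lt k

end Pool.Agent.Results.MP_662923_co.NotSperner
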